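import Pool.Agent.Helper89.Stx.Asm
import Pool.Agent.Helper49.Stx.Large

/-! # Anisotropic Strichartz estimates for `r₀ = 1` and every `r₁ ≥ 1`, below the decoupling exponent

`F (t, x) = ∑_{ξ ∈ J} a ξ exp (i (⟨x, ξ₁⟩ - t |ξ|²))`, `J = ℤ^{1 + r₁} ∩ ∏ [b_i, b_i + N]`, one frozen
space variable and `r₁` free ones. A frequency is written as a pair `ξ = (ξ.1, ξ.2)`, `ξ.1 ∈ ℤ` and
`ξ.2 ∈ ℤ^{r₁}`. There is `p₀ < 2 + 4 / (r₁ + 1)` such that for every `p ≥ p₀` the scale invariant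
estimate `‖F‖_{L^p ([0, 2π]^{1 + r₁})} ≤ C N ^ ((r₁ + 1) / 2 - (r₁ + 2) / p) ‖a‖_{ℓ²}` holds, with `C`
depending on `r₁` and `p` only. The exponent `2 + 4 / (r₁ + 1)` is the one given by decoupling and
Bernstein's inequality; the conjectured range is `p > 2 + 2 / (r₁ + 1)`.

Put `e = r₁ + 1`. Levels `|F| ≤ N ^ (e / 4 - c)` are treated by `L²`. At the critical level
`|F| ≈ N ^ (e / 4)` the level set has measure at most `N ^ (-c) |F| ^ (-2)`: for `r₁ = 1` this is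
`Stz.CL_proof` (a sieve for squares with exact time shifts, rectangles of shifts, an inverse theorem);
for `r₁ ≥ 2` it is `Stx.crit_proof`: the sieve and the positivity of Fejer kernels lead to pairs of
points of one time slice which differ by approximately rational vectors of many denominators, hence
satisfy at least two independent linear relations, and such pairs are rare by a `TT*` estimate on slabs
of codimension two. Larger levels are treated by the sieve with large moduli (`Stx.mid`) and by the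
large value theorem `Pool.Agent.Helper64.AS.m_LS`; shifts `|b₀| > K N²` reduce to `b₀ = 0` by
periodicity and sampling (`Stx.large`). -/

namespace Pool.Agent.Results.MP_65a63f_an.BelowDecoupling

open MeasureTheory

/-- The estimate for `r₀ = 1`, every `r₁ ≥ 1`, and all `p ≥ p₀` for some `p₀ < 2 + 4 / (r₁ + 1)`. -/
theorem result : ∀ r₁ : ℕ, 1 ≤ r₁ → ∃ p₀ : ℝ,
    2 + 2 / ((r₁ : ℝ) + 1) < p₀ ∧ p₀ < 2 + 4 / ((r₁ : ℝ) + 1) ∧
    ∀ p : ℝ, p₀ ≤ p → ∃ C : ℝ, 0 < C ∧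
    ∀ (b : Fin (r₁ + 1) → ℝ) (N : ℝ) (a : ℤ × (Fin r₁ → ℤ) → ℂ), 1 < N →
    (∫ z in Set.Icc (0 : ℝ) (2 * Real.pi) ×ˢ Set.Icc (0 : Fin r₁ → ℝ) (fun _ => 2 * Real.pi),
      ‖∑ ξ ∈ Finset.Icc ⌈b 0⌉ ⌊b 0 + N⌋ ×ˢ
          Fintype.piFinset (fun l : Fin r₁ => Finset.Icc ⌈b l.succ⌉ ⌊b l.succ + N⌋),
        a ξ * Complex.exp (((∑ l, z.2 l * ξ.2 l -
          z.1 * ((ξ.1 : ℝ) ^ 2 + ∑ l, (ξ.2 l : ℝ) ^ 2) : ℝ) : ℂ) * Complex.I)‖ ^ p) ^ (1 / p) ≤
      C * N ^ (((r₁ : ℝ) + 1) / 2 - ((r₁ : ℝ) + 2) / p) *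
        Real.sqrt (∑ ξ ∈ Finset.Icc ⌈b 0⌉ ⌊b 0 + N⌋ ×ˢ
          Fintype.piFinset (fun l : Fin r₁ => Finset.Icc ⌈b l.succ⌉ ⌊b l.succ + N⌋), ‖a ξ‖ ^ 2) :=
  fun r hr => Stx.fin_of r (Stx.large r) (Stx.small_all r hr)

end Pool.Agent.Results.MP_65a63f_an.BelowDecoupling
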