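import Pool.Agent.Helper64.AS.Main

/-!
# The anisotropic Strichartz estimate for large values, `r₀ = 1`, every `r₁ ≥ 1`

`r₀ = 1`, `r₁ ≥ 1`: for every exponent `p > 2 (r₁ + 2) / (r₁ + 1)` (the whole conjectured range) the
estimate of Q1 holds, with a constant depending on `r₁` and `p` only, for the part of `F` where
`|F| > θ ‖a‖`, `θ = min (A ((|b₀| + N) N) ^ ((r₁ + 1) / 8) (1 + log N)) (N ^ ((r₁ + 1) / 2 - c))`.

The proof: a majorant of the squares built from the characters `(l / q)` of primes `q` (middle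
levels) or of all `z`-rough squarefree `q` (top levels, completely multiplicative majorant, no
logarithmic loss), whose kernel lives near the reduced fractions with denominators `q q'`; for
large shifts the top levels are localised by Weyl differencing.
-/

set_option autoImplicit false

open MeasureTheory Pool.Agent.Helper64.AS

namespace Pool.Agent.Results.MP_65a63f_an.LargeValues

theorem result :
    ∀ (r₁ : ℕ) (p : ℝ), 1 ≤ r₁ → 2 + 2 / ((r₁ : ℝ) + 1) < p →
      ∃ (C A c : ℝ), 0 < C ∧ 0 < A ∧ 0 < c ∧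
        ∀ (b : Fin (r₁ + 1) → ℝ) (N : ℝ) (a : ℤ × (Fin r₁ → ℤ) → ℂ), 1 < N →
          (∫ z in {z ∈ cube r₁ |
              min (A * ((|b 0| + N) * N) ^ (((r₁ : ℝ) + 1) / 8) * (1 + Real.log N))
                  (N ^ (((r₁ : ℝ) + 1) / 2 - c)) *
                Real.sqrt (∑ ξ ∈ box r₁ b N, ‖a ξ‖ ^ 2) < ‖FF r₁ (box r₁ b N) a z.1 z.2‖},
            ‖FF r₁ (box r₁ b N) a z.1 z.2‖ ^ p) ^ (1 / p) ≤
          C * N ^ (((r₁ : ℝ) + 1) / 2 - ((r₁ : ℝ) + 2) / p) *
            Real.sqrt (∑ ξ ∈ box r₁ b N, ‖a ξ‖ ^ 2) :=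
  m_Lpall

end Pool.Agent.Results.MP_65a63f_an.LargeValues
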